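import Pool.Agent.N224.PJ.Rel

/-! # Joint ergodicity of good sequences for transformations with few self-joinings

Let `a` be a collection of `ℓ` integer sequences which is good for equidistribution, and `T` an
ergodic transformation of a standard Borel probability space. If the product measure is the only
self-joining of `2ℓ` copies of `T` which is pairwise independent, independent on eigenfunctions, and
a limit of averages of off-diagonal self-joinings whose gaps tend to infinity, then `a` is jointly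
ergodic for `T`. This holds in particular for every `T` which is mixing of all orders. If `T` is
mixing of all orders relative to a sub-σ-algebra (such as the Pinsker algebra), then joint ergodicity
on the functions which are measurable for the sub-σ-algebra is enough. -/

set_option autoImplicit false

open MeasureTheory Filter Topology

namespace Pool.Agent.Results.MP_63fdde_an.LimitJoinings

/-- The collection `a` is good for equidistribution (as in the frozen statement): the averages of
`e(∑ a_j(n) t_j)` tend to zero whenever some `t_j` is not an integer. -/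
def GoodForEquidistribution {ℓ : ℕ} (a : Fin ℓ → ℕ → ℤ) : Prop :=
  ∀ t : Fin ℓ → ℝ, (∃ j, Int.fract (t j) ≠ 0) →
    Tendsto (fun N : ℕ => (1 / (N : ℂ)) * ∑ n ∈ Finset.range N,
      Complex.exp (2 * (Real.pi : ℂ) * Complex.I * ((∑ j, (a j n : ℝ) * t j : ℝ) : ℂ))) atTop (𝓝 0)

/-- The collection `a` is jointly ergodic for `T` (as in the frozen statement). -/
def JointlyErgodicFor {ℓ : ℕ} (a : Fin ℓ → ℕ → ℤ) {X : Type} [MeasurableSpace X] (μ : Measure X)
    (T : Equiv.Perm X) : Prop :=
  ∀ f : Fin ℓ → X → ℝ, (∀ j, Measurable (f j)) → (∀ j, ∃ C : ℝ, ∀ x, |f j x| ≤ C) →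
    Tendsto (fun N : ℕ => ∫ x, (((1 / (N : ℝ)) * ∑ n ∈ Finset.range N,
      ∏ j, f j ((T ^ (a j n)) x)) - ∏ j, ∫ y, f j y ∂μ) ^ 2 ∂μ) atTop (𝓝 0)

section

variable {X : Type} [MeasurableSpace X] (μ : Measure X) (T : Equiv.Perm X) {ι : Type} [Fintype ι]
  (ν : Measure (ι → X))

/-- `ν` is a self-joining of `T`: a probability measure on the power `ι → X` which is invariant
under `T × ⋯ × T` and has all marginals equal to `μ`. -/
structure IsSelfJoining : Prop where
  prob : IsProbabilityMeasure ν
  marginal : ∀ i, ν.map (fun x => x i) = μ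
  invariant : ν.map (fun x i => T (x i)) = ν

/-- any two different coordinates are independent -/
def PairwiseIndependent : Prop := ∀ i j, i ≠ j → ν.map (fun x => (x i, x j)) = μ.prod μ

/-- Independence on eigenfunctions: `∫ ∏ φ_i(x_i) dν = 0` for all eigenfunctions `φ_i` with
eigenvalues `e(t_i)`, not all of them one. (No condition at all if `T` is weakly mixing.) -/
def EigenfunctionsIndependent : Prop :=
  ∀ (φ : ι → X → ℂ) (t : ι → ℝ), (∀ i, Measurable (φ i)) → (∀ i x, ‖φ i x‖ ≤ 1) →
    (∀ i, ∀ᵐ x ∂μ, φ i (T x) = Complex.exp (2 * (Real.pi : ℂ) * Complex.I * (t i : ℂ)) * φ i x) →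
    (∃ i, Int.fract (t i) ≠ 0) → ∫ x, ∏ i, φ i (x i) ∂ν = 0

/-- For all `D`, on any finitely many boxes and up to any `ε > 0`, the measure `ν` is a finite
average of the off-diagonal self-joinings, the distributions of `(T ^ (c i) x)_i`, with gaps
`|c i - c j| ≥ D` for `i ≠ j`. -/
def LimitOfOffDiagonals : Prop :=
  ∀ (D : ℤ) (ε : ℝ), 0 < ε → ∀ (K : ℕ) (A : Fin K → ι → Set X), (∀ k i, MeasurableSet (A k i)) →
    ∃ (S : Type) (_ : Fintype S) (_ : Nonempty S) (c : S → ι → ℤ),
      (∀ s i j, i ≠ j → D ≤ |c s i - c s j|) ∧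
      ∀ k, |ν.real (Set.univ.pi (A k)) -
        (1 / (Fintype.card S : ℝ)) * ∑ s, μ.real {x | ∀ i, (T ^ c s i) x ∈ A k i}| ≤ ε

end

/-- The product measure is the only self-joining of `T` indexed by `ι` which is pairwise
independent, independent on eigenfunctions and a limit of off-diagonals with gaps tending to
infinity. -/
def OnlyProductLimitJoining {X : Type} [MeasurableSpace X] (μ : Measure X) (T : Equiv.Perm X)
    (ι : Type) [Fintype ι] : Prop :=
  ∀ ν : Measure (ι → X), IsSelfJoining μ T ν → PairwiseIndependent μ ν →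
    EigenfunctionsIndependent μ T ν → LimitOfOffDiagonals μ T ν → ν = Measure.pi fun _ => μ

/-- `T` is mixing of all orders. -/
def MixingOfAllOrders {X : Type} [MeasurableSpace X] (μ : Measure X) (T : Equiv.Perm X) : Prop :=
  ∀ (k : ℕ) (A : Fin k → Set X), (∀ i, MeasurableSet (A i)) → ∀ ε : ℝ, 0 < ε → ∃ D : ℤ,
    ∀ c : Fin k → ℤ, (∀ i j, i ≠ j → D ≤ |c i - c j|) →
      |μ.real {x | ∀ i, (T ^ c i) x ∈ A i} - ∏ i, μ.real (A i)| ≤ ε

/-- The collection `a` is jointly ergodic for `T` on the `mP`-measurable bounded functions. -/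
def JointlyErgodicOn {ℓ : ℕ} (a : Fin ℓ → ℕ → ℤ) {X : Type} (mP : MeasurableSpace X)
    [mX : MeasurableSpace X] (μ : Measure X) (T : Equiv.Perm X) : Prop :=
  ∀ f : Fin ℓ → X → ℝ, (∀ j, Measurable[mP] (f j)) → (∀ j, ∃ C : ℝ, ∀ x, |f j x| ≤ C) →
    Tendsto (fun N : ℕ => ∫ x, (((1 / (N : ℝ)) * ∑ n ∈ Finset.range N,
      ∏ j, f j ((T ^ (a j n)) x)) - ∏ j, ∫ y, f j y ∂μ) ^ 2 ∂μ) atTop (𝓝 0)

/-- `T` is mixing of all orders relative to the σ-algebra `mP`: the integral of
`∏ f_i(T ^ (c i) x)` tends to zero as the gaps of the `c i` tend to infinity if the `f_i` are bounded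
and measurable and one of them has conditional mean zero with respect to `mP`. -/
def MixingRelativeTo {X : Type} (mP : MeasurableSpace X) [mX : MeasurableSpace X] (μ : Measure X)
    (T : Equiv.Perm X) : Prop :=
  ∀ (k : ℕ) (f : Fin k → X → ℝ), (∀ i, Measurable[mX] (f i)) → (∀ i, ∃ C : ℝ, ∀ x, |f i x| ≤ C) →
    (∃ i, ∀ B, MeasurableSet[mP] B → ∫ x in B, f i x ∂μ = 0) → ∀ ε : ℝ, 0 < ε → ∃ D : ℤ,
      ∀ c : Fin k → ℤ, (∀ i j, i ≠ j → D ≤ |c i - c j|) → |∫ x, ∏ i, f i ((T ^ c i) x) ∂μ| ≤ ε

theorem onlyProduct_of_mixing {X : Type} [MeasurableSpace X] {μ : Measure X} [IsProbabilityMeasure μ]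
    {T : Equiv.Perm X} (h : MixingOfAllOrders μ T) (ι : Type) [Fintype ι] :
    OnlyProductLimitJoining μ T ι := by
  intro ν hj _ _ hl
  have hp := hj.prob
  refine (Measure.pi_eq fun A hA => ?_).symm
  have h1 : ν.real (Set.univ.pi A) = ∏ i, μ.real (A i) := by
    refine eq_of_forall_dist_le fun ε hε => ?_
    rw [Real.dist_eq]
    let e := Fintype.equivFin ι
    obtain ⟨D, hD⟩ := h (Fintype.card ι) (fun q => A (e.symm q)) (fun q => hA _) (ε / 2) (by positivity)
    obtain ⟨S, hS1, hS2, c, hc1, hc2⟩ := hl D (ε / 2) (by positivity) 1 (fun _ => A) (fun _ => hA)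
    have h2 := hc2 0
    have h3 : ∀ s, |μ.real {x | ∀ i, (T ^ c s i) x ∈ A i} - ∏ i, μ.real (A i)| ≤ ε / 2 := by
      intro s
      have h4 := hD (fun q => c s (e.symm q)) (fun i j hij => hc1 s _ _ fun h => hij (e.symm.injective h))
      have h5 : {x | ∀ q, (T ^ c s (e.symm q)) x ∈ A (e.symm q)} = {x | ∀ i, (T ^ c s i) x ∈ A i} := by
        ext x
        simp only [Set.mem_ofPred_eq]
        exact e.symm.forall_congr_left.trans (by simp)
      have h6 : ∏ q, μ.real (A (e.symm q)) = ∏ i, μ.real (A i) :=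
        Equiv.prod_comp e.symm fun i => μ.real (A i)
      rwa [h5, h6] at h4
    have hn : (0 : ℝ) < (Fintype.card S : ℝ) := by exact_mod_cast Fintype.card_pos
    have h7 : |(1 / (Fintype.card S : ℝ)) * ∑ s, μ.real {x | ∀ i, (T ^ c s i) x ∈ A i} -
        ∏ i, μ.real (A i)| ≤ ε / 2 := by
      have h8 : (1 / (Fintype.card S : ℝ)) * ∑ s, μ.real {x | ∀ i, (T ^ c s i) x ∈ A i} -
          ∏ i, μ.real (A i) = (1 / (Fintype.card S : ℝ)) *
            ∑ s : S, (μ.real {x | ∀ i, (T ^ c s i) x ∈ A i} - ∏ i, μ.real (A i)) := by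
        rw [Finset.sum_sub_distrib, Finset.sum_const, Finset.card_univ, nsmul_eq_mul]
        field_simp
      rw [h8, abs_mul, abs_of_pos (by positivity : (0 : ℝ) < 1 / (Fintype.card S : ℝ))]
      calc (1 / (Fintype.card S : ℝ)) *
            |∑ s : S, (μ.real {x | ∀ i, (T ^ c s i) x ∈ A i} - ∏ i, μ.real (A i))|
          ≤ (1 / (Fintype.card S : ℝ)) * ∑ _s : S, ε / 2 := by
            refine mul_le_mul_of_nonneg_left ?_ (by positivity)
            exact (Finset.abs_sum_le_sum_abs _ _).trans (Finset.sum_le_sum fun s _ => h3 s)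
        _ = ε / 2 := by
            rw [Finset.sum_const, Finset.card_univ, nsmul_eq_mul]
            field_simp
    rw [abs_le] at h2 h7 ⊢
    constructor <;> linarith [h2.1, h2.2, h7.1, h7.2]
  have h2 : (ν (Set.univ.pi A)).toReal = (∏ i, μ (A i)).toReal := by
    rw [ENNReal.toReal_prod]
    exact h1
  exact (ENNReal.toReal_eq_toReal_iff' (measure_ne_top _ _)
    (ENNReal.prod_ne_top fun i _ => measure_ne_top _ _)).1 h2

theorem joint_of_onlyProduct {X : Type} [MeasurableSpace X] [StandardBorelSpace X] {μ : Measure X}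
    [IsProbabilityMeasure μ] {T : Equiv.Perm X} (hTs : Measurable T.symm) (hT : Ergodic T μ) {ℓ : ℕ}
    {a : Fin ℓ → ℕ → ℤ} (ha : GoodForEquidistribution a)
    (hJ : OnlyProductLimitJoining μ T (Fin ℓ ⊕ Fin ℓ)) : JointlyErgodicFor a μ T := by
  intro f hf hb
  exact N224.PJ.joint_std_off a ha hT hTs (fun ν hν hoff =>
    hJ ν ⟨hν.prob, hν.marg, hν.inv⟩ hν.pair hν.eig hoff) f hf hb

theorem joint_of_rel {X : Type} {mP : MeasurableSpace X} [mX : MeasurableSpace X] {μ : Measure X}
    [IsProbabilityMeasure μ] {T : Equiv.Perm X} (hTs : Measurable T.symm) (hT : Ergodic T μ)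
    (hmP : mP ≤ mX) (h : MixingRelativeTo mP μ T) {ℓ : ℕ} {a : Fin ℓ → ℕ → ℤ}
    (ha : GoodForEquidistribution a) (hJ : JointlyErgodicOn a mP μ T) : JointlyErgodicFor a μ T :=
  fun f hf hb => N224.PJ.joint_rel hT.toMeasurePreserving hTs ha hmP h hJ f hf hb

/-- Let `T` be an ergodic transformation of a standard Borel probability space.
(1) If the product measure is the only self-joining of `2ℓ` copies of `T` which is pairwise
independent, independent on eigenfunctions and a limit of off-diagonal self-joinings with gaps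
tending to infinity, then each collection of `ℓ` integer sequences which is good for
equidistribution is jointly ergodic for `T`.
(2) If `T` is mixing of all orders, then each collection which is good for equidistribution is
jointly ergodic for `T`.
(3) If `T` is mixing of all orders relative to a sub-σ-algebra `mP`, then each collection which is
good for equidistribution and jointly ergodic for `T` on the `mP`-measurable bounded functions is
jointly ergodic for `T`. -/
theorem result (X : Type) [mX : MeasurableSpace X] [StandardBorelSpace X] (μ : Measure X)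
    [IsProbabilityMeasure μ] (T : Equiv.Perm X) (_hTm : Measurable T) (hTs : Measurable T.symm)
    (hT : Ergodic T μ) :
    (∀ (ℓ : ℕ) (a : Fin ℓ → ℕ → ℤ), GoodForEquidistribution a →
      OnlyProductLimitJoining μ T (Fin ℓ ⊕ Fin ℓ) → JointlyErgodicFor a μ T) ∧
    (MixingOfAllOrders μ T → ∀ (ℓ : ℕ) (a : Fin ℓ → ℕ → ℤ), GoodForEquidistribution a →
      JointlyErgodicFor a μ T) ∧
    (∀ mP : MeasurableSpace X, mP ≤ mX → @MixingRelativeTo X mP mX μ T →
      ∀ (ℓ : ℕ) (a : Fin ℓ → ℕ → ℤ), GoodForEquidistribution a →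
        @JointlyErgodicOn ℓ a X mP mX μ T → @JointlyErgodicFor ℓ a X mX μ T) :=
  ⟨fun _ _ ha hJ => joint_of_onlyProduct hTs hT ha hJ,
    fun h _ _ ha => joint_of_onlyProduct hTs hT ha (onlyProduct_of_mixing h _),
    fun mP hmP h ℓ a ha hJ => @joint_of_rel X mP mX μ _ T hTs hT hmP h ℓ a ha hJ⟩

end Pool.Agent.Results.MP_63fdde_an.LimitJoinings
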